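import Pool.Agent.H180.UP.Emb

/-!
# Cancelling tensor factors in unital embeddings of UHF-type algebras

If `κ < κ'`, `κ'` is infinite and `⨂_{κ'} M_N` embeds unitally into `A ⊗ ⨂_κ M_N`, where
`A = ⨂_{i ∈ I} M_{m_i}`, then `⨂_{κ'} M_N` embeds unitally into `A`.
-/

universe u

open Cardinal Pool.Agent.Helper741.UHF

namespace Pool.Agent.Results.MP_c44838_an.Cancellation

/-- The assertion of the question for the number `N` and the cardinals `κ = #K` and `κ' = #K'`:
for all `A = ⨂_{i ∈ I} M_{m_i}(ℂ)`, `B = ⨂_K M_N(ℂ)`, `B' = ⨂_{K'} M_N(ℂ)` and `E = A ⊗ B`, if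
`B'` embeds unitally into `E` then `B'` embeds unitally into `A`. -/
def Cancels (N : ℕ) (K K' : Type u) : Prop :=
  ∀ (I : Type u) (m : I → ℕ), (∀ i, 0 < m i) →
    ∀ (A B B' E : Type u) [CStarAlgebra A] [CStarAlgebra B] [CStarAlgebra B'] [CStarAlgebra E],
      IsMatrixTensor m A → IsMatrixTensor (fun _ : K => N) B →
      IsMatrixTensor (fun _ : K' => N) B' → IsCStarTensor A B E →
      EmbedsUnitally B' E → EmbedsUnitally B' A

/-- **Main result.** The answer is yes; for infinite `K` the algebra `⨂_K M_N` embeds unitally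
into `⨂_{j ∈ J} M_{n_j}` if and only if every prime divisor of `N` divides at least `#K` of the
numbers `n_j`; all the algebras exist, are unique up to isomorphism, and `A ⊗ B` is the tensor
product over the disjoint union of the index sets. -/
theorem result :
    (∀ (N : ℕ) (K K' : Type u), 0 < N → #K < #K' → ℵ₀ ≤ #K' → Cancels N K K') ∧
    (∀ (J K : Type u) (n : J → ℕ) (N : ℕ), (∀ j, 0 < n j) → 0 < N → ℵ₀ ≤ #K →
      ∀ (E C : Type u) [CStarAlgebra E] [CStarAlgebra C],
        IsMatrixTensor n E → IsMatrixTensor (fun _ : K => N) C →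
        (EmbedsUnitally C E ↔ ∀ p, p.Prime → p ∣ N → #K ≤ #{j | p ∣ n j})) ∧
    (∀ (J : Type u) (n : J → ℕ), (∀ j, 0 < n j) →
      (∃ (E : Type u) (_ : CStarAlgebra E), IsMatrixTensor n E) ∧
      ∀ (E F : Type u) [CStarAlgebra E] [CStarAlgebra F],
        IsMatrixTensor n E → IsMatrixTensor n F → Nonempty (E ≃⋆ₐ[ℂ] F)) ∧
    (∀ (I K : Type u) (n : I → ℕ) (m : K → ℕ), (∀ i, 0 < n i) → (∀ k, 0 < m k) →
      ∀ (A B E : Type u) [CStarAlgebra A] [CStarAlgebra B] [CStarAlgebra E],
        IsMatrixTensor n A → IsMatrixTensor m B →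
        (IsCStarTensor A B E ↔ IsMatrixTensor (Sum.elim n m) E)) := by
  refine ⟨?_, ?_, fun J n hn => ⟨exists_isMatrixTensor n hn, fun E F _ _ hE hF =>
      isMatrixTensor_unique hn hE hF⟩, fun I K n m hn hm A B E _ _ _ hA hB =>
      isCStarTensor_iff hn hm hA hB⟩
  · intro N K K' hN hlt hinf I m hm A B B' E _ _ _ _ hA hB hB' hE hemb
    have : Infinite K' := infinite_iff.mpr hinf
    exact Pool.Agent.H180.UP.cancel hm hN hlt hA hB hB' hE hemb
  · intro J K n N hn hN hinf E C _ _ hE hC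
    have : Infinite K := infinite_iff.mpr hinf
    exact Pool.Agent.H180.UP.embeds_iff hN hn hE hC

end Pool.Agent.Results.MP_c44838_an.Cancellation
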